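import Pool.Agent.Y5.V.Stm3
import Pool.Agent.Y177.VL.XN4

/-! The interactions of the chain with the damped modes, general exponent (for helper5's project VL). -/

open Set Filter Topology

set_option autoImplicit false
set_option linter.all false

namespace Pool.Agent.Y309.VL.XN4S

open Pool.Agent.Y5 Pool.Agent.Y5.D Pool.Agent.Y5.V
open Pool.Agent.Y6.K (Em Ac cvf Chain S_CJ1 S_CJ2)
open Pool.Agent.Y6.M (nsq)
open Pool.Agent.Y302.Trunc (Lev rho rb)
open Pool.Agent.Y177.VL.XN4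

open Classical in
/-- the large damped modes are small -/
lemma gg_eos {s : ℝ} (hs0 : 0 < s) (hs1 : s ≤ 1) {w : Fam} (rw' : Rap w) (n : ℕ) :
    √(∑' q, gg w n q ^ 2) ≤ ((10 : ℝ) ^ 8) ^ (s / 2 : ℝ) * Ac n ^ (-s : ℝ) *
      √(∑' k, if lac (nsq k) then 0 else (nsq k : ℝ) ^ s * ‖w k‖ ^ 2) := by
  have hA := Ac_pos n
  set R : ℝ := Ac n ^ 2 / 10 ^ 8 with hR
  have hR0 : 0 < R := by positivity
  set E : ℝ := ∑' k, if lac (nsq k) then 0 else (nsq k : ℝ) ^ s * ‖w k‖ ^ 2 with hE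
  have hn0 : ∀ k : Z3, (0 : ℝ) ≤ ((nsq k : ℤ) : ℝ) := fun k => by
    rw [← nsq_vec]
    positivity
  have hE0 : ∀ k : Z3, 0 ≤ (if lac (nsq k) then 0 else (nsq k : ℝ) ^ s * ‖w k‖ ^ 2) := by
    intro k
    split_ifs
    · exact le_rfl
    · have := hn0 k
      positivity
  have sE : Summable fun k => if lac (nsq k) then 0 else (nsq k : ℝ) ^ s * ‖w k‖ ^ 2 := by
    refine Summable.of_nonneg_of_le hE0 (fun k => ?_)
      ((Pool.Agent.Y691.ND.F.sum2 rw').add (summ_sq rw'))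
    split_ifs
    · positivity
    · have h1 : ((nsq k : ℤ) : ℝ) ^ s ≤ ‖vec k‖ ^ 2 + 1 := by
        rw [nsq_vec]
        rcases le_total ((nsq k : ℤ) : ℝ) 1 with h | h
        · have := Real.rpow_le_one (hn0 k) h hs0.le
          have := hn0 k
          linarith
        · have := Real.rpow_le_rpow_of_exponent_le h hs1
          rw [Real.rpow_one] at this
          linarith
      calc ((nsq k : ℤ) : ℝ) ^ s * ‖w k‖ ^ 2 ≤ (‖vec k‖ ^ 2 + 1) * ‖w k‖ ^ 2 := by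
            gcongr
        _ = _ := by ring
  have key : ∀ q, gg w n q ^ 2 ≤ R ^ (-s : ℝ) *
      (if lac (nsq q) then 0 else (nsq q : ℝ) ^ s * ‖w q‖ ^ 2) := by
    intro q
    by_cases h : ¬ lac (nsq q) ∧ Ac n ^ 2 / 10 ^ 8 ≤ ‖vec q‖ ^ 2
    · have e1 : gg w n q = ‖w q‖ := if_pos h
      rw [e1, if_neg h.1, ← mul_assoc]
      have h2 : R ≤ ((nsq q : ℤ) : ℝ) := by
        rw [← nsq_vec]
        exact h.2
      have h3 : R ^ s ≤ ((nsq q : ℤ) : ℝ) ^ s :=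
        Real.rpow_le_rpow hR0.le h2 hs0.le
      have h4 : R ^ (-s : ℝ) * R ^ s = 1 := by
        rw [← Real.rpow_add hR0, neg_add_cancel, Real.rpow_zero]
      have h5 : 1 ≤ R ^ (-s : ℝ) * ((nsq q : ℤ) : ℝ) ^ s := by
        rw [← h4]
        exact mul_le_mul_of_nonneg_left h3 (by positivity)
      exact le_mul_of_one_le_left (sq_nonneg _) h5
    · have e1 : gg w n q = 0 := if_neg h
      rw [e1, zero_pow two_ne_zero]
      exact mul_nonneg (by positivity) (hE0 q)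
  have h1 : ∑' q, gg w n q ^ 2 ≤ R ^ (-s : ℝ) * E := by
    rw [hE, ← tsum_mul_left]
    exact (summ_gg rw' n).tsum_le_tsum key (sE.mul_left _)
  have h2 : √(R ^ (-s : ℝ)) = ((10 : ℝ) ^ 8) ^ (s / 2 : ℝ) * Ac n ^ (-s : ℝ) := by
    rw [Real.sqrt_eq_rpow, ← Real.rpow_mul hR0.le, hR, Real.div_rpow (by positivity) (by positivity)]
    rw [← Real.rpow_natCast (Ac n) 2, ← Real.rpow_mul hA.le]
    rw [show (-s * (1 / 2) : ℝ) = -(s / 2) by ring]
    rw [Real.rpow_neg (by positivity) (s / 2), div_inv_eq_mul, mul_comm]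
    congr 2
    push_cast
    ring
  calc √(∑' q, gg w n q ^ 2) ≤ √(R ^ (-s : ℝ) * E) := Real.sqrt_le_sqrt h1
    _ = _ := by rw [Real.sqrt_mul (by positivity), h2]

theorem t_XN4S : S_XN4S := by
  intro s hs0 hs1
  refine ⟨960 * Real.pi * ((10 : ℝ) ^ 8) ^ (s / 2 : ℝ), by positivity, ?_⟩
  intro w x ow rw' h1 hw n
  have hA := Ac_pos n
  refine (diff_le ow rw' h1 hw n).trans ?_
  have h2 := gg_eos hs0 hs1 rw' n
  have h3 : Ac n * Ac n ^ (-s : ℝ) = Ac n ^ (1 - s : ℝ) := by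
    nth_rewrite 1 [← Real.rpow_one (Ac n)]
    rw [← Real.rpow_add hA, sub_eq_add_neg]
  calc 960 * Real.pi * (Ac n * √(∑' q, gg w n q ^ 2))
      ≤ 960 * Real.pi * (Ac n * (((10 : ℝ) ^ 8) ^ (s / 2 : ℝ) * Ac n ^ (-s : ℝ) *
        √(open Classical in
          ∑' k, if lac (nsq k) then 0 else (nsq k : ℝ) ^ s * ‖w k‖ ^ 2))) := by
        gcongr
    _ = 960 * Real.pi * ((10 : ℝ) ^ 8) ^ (s / 2 : ℝ) * (Ac n * Ac n ^ (-s : ℝ)) *
        √(open Classical in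
          ∑' k, if lac (nsq k) then 0 else (nsq k : ℝ) ^ s * ‖w k‖ ^ 2) := by ring
    _ = _ := by rw [h3]

end Pool.Agent.Y309.VL.XN4S
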